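import Pool.Agent.Y911.PP.Gcd

/-!
Pairs of points of the projective line: the pairs with a large common support are few.
-/

set_option autoImplicit false

namespace Pool.Agent.Y911.PP

open NumberField IsDedekindDomain Finset
open Pool.Agent.H691R3 Pool.Agent.TH876.Loc

/-- points of the product of two lines -/
abbrev PPt (K : Type) [Field K] : Type :=
  Projectivization K (Fin 2 → K) × Projectivization K (Fin 2 → K)

/-- the pairs of points of small height -/
theorem small_count (K : Type) [Field K] [NumberField K] : ∃ C : ℝ, 0 < C ∧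
    ∀ (T : ℝ) (F : Finset (PPt K)), 0 ≤ T →
      (∀ z ∈ F, Height.logHeight z.1.rep ≤ T ∧ Height.logHeight z.2.rep ≤ T) →
      (F.card : ℝ) ≤ C * Real.exp (4 * T) := by
  classical
  obtain ⟨C, hC, h⟩ := pack_le K
  refine ⟨(2 * C) ^ 2, by positivity, ?_⟩
  intro T F hT hF
  have h1 : 1 ≤ Real.exp (2 * T) := Real.one_le_exp (by positivity)
  have key : ∀ G : Finset (Projectivization K (Fin 2 → K)),
      (∀ P ∈ G, Height.logHeight P.rep ≤ T) → (G.card : ℝ) ≤ 2 * C * Real.exp (2 * T) := by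
    intro G hG
    rcases G.eq_empty_or_nonempty with hG0 | ⟨P0, _⟩
    · rw [hG0]
      simp only [Finset.card_empty, Nat.cast_zero]
      positivity
    have h2 := h G ∅ (fun _ => P0) T hG (fun P _ v hv => absurd hv (Finset.notMem_empty v))
    have h3 : nn (∅ : Finset (Pr K)) = 1 := by
      unfold nn
      exact Finset.prod_empty
    rw [h3, div_one] at h2
    nlinarith
  have h2 : F.card ≤ (F.image Prod.fst).card * (F.image Prod.snd).card := by
    rw [← Finset.card_product]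
    refine Finset.card_le_card fun z hz => ?_
    rw [Finset.mem_product]
    exact ⟨Finset.mem_image_of_mem _ hz, Finset.mem_image_of_mem _ hz⟩
  have h3 := key (F.image Prod.fst) fun P hP => by
    obtain ⟨z, hz, rfl⟩ := Finset.mem_image.1 hP
    exact (hF z hz).1
  have h4 := key (F.image Prod.snd) fun P hP => by
    obtain ⟨z, hz, rfl⟩ := Finset.mem_image.1 hP
    exact (hF z hz).2
  calc (F.card : ℝ) ≤ ((F.image Prod.fst).card : ℝ) * ((F.image Prod.snd).card : ℝ) := by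
        exact_mod_cast h2
    _ ≤ (2 * C * Real.exp (2 * T)) * (2 * C * Real.exp (2 * T)) :=
        mul_le_mul h3 h4 (Nat.cast_nonneg _) (by positivity)
    _ = (2 * C) ^ 2 * (Real.exp (2 * T) * Real.exp (2 * T)) := by ring
    _ = (2 * C) ^ 2 * Real.exp (4 * T) := by
        rw [← Real.exp_add]
        congr 2
        ring

variable {K : Type} [Field K] [NumberField K] {q r : ℕ}

/-- the case of the gcd count which is used -/
theorem gcd_two (S : Set (Pr K)) (hS : S.Finite) (hq : 3 ≤ q)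
    {A : Fin q → Projectivization K (Fin 2 → K)} (hA : Function.Injective A)
    (B : Fin r → Projectivization K (Fin 2 → K)) (δ : ℝ) (hδ : 0 < δ) :
    ∃ C : ℝ, 0 < C ∧ ∀ (L L' μ : ℝ) (F : Finset (PPt K)), 0 ≤ L → 0 ≤ L' →
      μ ≤ 2 / (r : ℝ) * L' → (∀ z ∈ F, (∀ l, z.1 ≠ A l) ∧ (∀ l, z.2 ≠ B l) ∧
        Real.log (nn (sps S A z.1)) ≤ L ∧
        Height.logHeight z.2.rep ≤ (1 / (r : ℝ) + δ) * L' ∧
        ∃ U : Finset (Pr K), (∀ v ∈ U, v ∈ sps S A z.1 ∧ v ∈ sps S B z.2) ∧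
          μ ≤ Real.log (nn U)) →
      (F.card : ℝ) ≤ C * Real.exp (2 / (q : ℝ) * L + 2 / (r : ℝ) * L' + 2 * δ * (L + L') - μ) := by
  classical
  obtain ⟨C, hC, h⟩ := gcd_one S hS hq hA B δ hδ
  refine ⟨2 * C, by positivity, ?_⟩
  intro L L' μ F hL hL' hμ hF
  have h1 := h (Real.exp L) ((1 / (r : ℝ) + δ) * L') (Real.exp μ) F (Real.one_le_exp hL)
    (Real.exp_pos _) ?_
  · have e1 : Real.exp L ^ (2 / (q : ℝ) + 2 * δ) = Real.exp (L * (2 / (q : ℝ) + 2 * δ)) :=
      (Real.exp_mul _ _).symm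
    have e2 : Real.exp (2 * ((1 / (r : ℝ) + δ) * L')) / Real.exp μ =
        Real.exp (2 / (r : ℝ) * L' + 2 * δ * L' - μ) := by
      rw [← Real.exp_sub]
      congr 1
      ring
    have e3 : (1 : ℝ) ≤ Real.exp (2 / (r : ℝ) * L' + 2 * δ * L' - μ) := by
      apply Real.one_le_exp
      have : 0 ≤ 2 * δ * L' := by positivity
      linarith
    rw [e1, e2] at h1
    calc (F.card : ℝ) ≤ _ := h1
      _ ≤ C * Real.exp (L * (2 / (q : ℝ) + 2 * δ)) *
          (2 * Real.exp (2 / (r : ℝ) * L' + 2 * δ * L' - μ)) := by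
          refine mul_le_mul_of_nonneg_left (by linarith) (by positivity)
      _ = 2 * C * (Real.exp (L * (2 / (q : ℝ) + 2 * δ)) *
          Real.exp (2 / (r : ℝ) * L' + 2 * δ * L' - μ)) := by ring
      _ = _ := by
          rw [← Real.exp_add]
          congr 2
          ring
  · intro z hz
    obtain ⟨k1, k2, k3, k4, U, k5, k6⟩ := hF z hz
    refine ⟨k1, k2, ?_, k4, ?_⟩
    · rw [← Real.exp_log (nn_pos (sps S A z.1))]
      exact Real.exp_le_exp.2 k3
    · have h2 : nn U ≤ nn (sps S A z.1 ∩ sps S B z.2) :=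
        nn_mono fun v hv => Finset.mem_inter.2 (k5 v hv)
      refine le_trans ?_ h2
      rw [← Real.exp_log (nn_pos U)]
      exact Real.exp_le_exp.2 k6

/-- **The pairs with a large common support are few.** -/
theorem bad_count (S : Set (Pr K)) (hS : S.Finite) (hq : 3 ≤ q) (hr : 3 ≤ r)
    {A : Fin q → Projectivization K (Fin 2 → K)} (hA : Function.Injective A)
    {B : Fin r → Projectivization K (Fin 2 → K)} (hB : Function.Injective B)
    (ε : ℝ) (hε : 0 < ε) :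
    ∃ δ ν C : ℝ, 0 < δ ∧ 0 < ν ∧ 0 < C ∧ ∀ (L L' : ℝ) (F : Finset (PPt K)), 0 ≤ L → 0 ≤ L' →
      (∀ z ∈ F, (∀ l, z.1 ≠ A l) ∧ (∀ l, z.2 ≠ B l) ∧
        Real.log (nn (sps S A z.1)) ≤ L ∧ Real.log (nn (sps S B z.2)) ≤ L' ∧
        Height.logHeight z.1.rep ≤ (1 / (q : ℝ) + δ) * L ∧
        Height.logHeight z.2.rep ≤ (1 / (r : ℝ) + δ) * L' ∧
        ∃ U : Finset (Pr K), (∀ v ∈ U, v ∈ sps S A z.1 ∧ v ∈ sps S B z.2) ∧
          ε * (Height.logHeight z.1.rep + Height.logHeight z.2.rep) ≤ Real.log (nn U)) →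
      (F.card : ℝ) ≤ C * Real.exp (2 / (q : ℝ) * L + 2 / (r : ℝ) * L' - ν * (L + L')) := by
  classical
  have hq0 : (0 : ℝ) < q := by exact_mod_cast (by omega : 0 < q)
  have hr0 : (0 : ℝ) < r := by exact_mod_cast (by omega : 0 < r)
  obtain ⟨θ₁, hθ₁⟩ : ∃ θ, θ = 2 / (q : ℝ) := ⟨_, rfl⟩
  obtain ⟨θ₂, hθ₂⟩ : ∃ θ, θ = 2 / (r : ℝ) := ⟨_, rfl⟩
  have t1 : 0 < θ₁ := by rw [hθ₁]; positivity
  have t2 : 0 < θ₂ := by rw [hθ₂]; positivity
  obtain ⟨m, hm⟩ : ∃ m, m = min θ₁ θ₂ := ⟨_, rfl⟩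
  have m0 : 0 < m := by rw [hm]; exact lt_min t1 t2
  have m1 : m ≤ θ₁ := by rw [hm]; exact min_le_left _ _
  have m2 : m ≤ θ₂ := by rw [hm]; exact min_le_right _ _
  obtain ⟨e, he⟩ : ∃ e, e = min ε 1 := ⟨_, rfl⟩
  have e0 : 0 < e := by rw [he]; exact lt_min hε one_pos
  have e1 : e ≤ ε := by rw [he]; exact min_le_left _ _
  have e2 : e ≤ 1 := by rw [he]; exact min_le_right _ _
  obtain ⟨η, hη⟩ : ∃ η, η = m / 16 := ⟨_, rfl⟩
  have η0 : 0 < η := by rw [hη]; positivity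
  obtain ⟨κ, hκ⟩ : ∃ κ, κ = e * η := ⟨_, rfl⟩
  have κ0 : 0 < κ := by rw [hκ]; positivity
  have κ1 : κ ≤ η := by
    rw [hκ]
    nlinarith
  obtain ⟨δ, hδ⟩ : ∃ δ, δ = κ / 16 := ⟨_, rfl⟩
  have δ0 : 0 < δ := by rw [hδ]; positivity
  obtain ⟨C0, hC0, h0⟩ := small_count K
  obtain ⟨C1, hC1, h1⟩ := gcd_two S hS hq hA B δ δ0
  obtain ⟨C2, hC2, h2⟩ := gcd_two S hS hr hB A δ δ0
  refine ⟨δ, κ / 2, C0 + (C1 + C2), δ0, by positivity, by positivity, ?_⟩
  intro L L' F hL hL' hF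
  rw [← hθ₁, ← hθ₂]
  obtain ⟨Z, hZ⟩ : ∃ Z, Z = L + L' := ⟨_, rfl⟩
  have Z0 : 0 ≤ Z := by rw [hZ]; linarith
  rw [← hZ]
  have hmZ : m * Z ≤ θ₁ * L + θ₂ * L' := by
    rw [hZ]
    nlinarith
  obtain ⟨E, hE⟩ : ∃ E, E = Real.exp (θ₁ * L + θ₂ * L' - κ / 2 * Z) := ⟨_, rfl⟩
  rw [← hE]
  have hE0 : 0 < E := by rw [hE]; exact Real.exp_pos _
  -- the pairs of small height
  obtain ⟨Fa, hFa⟩ : ∃ Fa : Finset (PPt K), Fa = F.filter fun z =>
    Height.logHeight z.1.rep + Height.logHeight z.2.rep ≤ η * Z := ⟨_, rfl⟩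
  obtain ⟨Fb, hFb⟩ : ∃ Fb : Finset (PPt K), Fb = F.filter fun z =>
    ¬ Height.logHeight z.1.rep + Height.logHeight z.2.rep ≤ η * Z := ⟨_, rfl⟩
  have hcard : F.card = Fa.card + Fb.card := by
    rw [hFa, hFb]
    exact (Finset.card_filter_add_card_filter_not _).symm
  have hηZ : 0 ≤ η * Z := by positivity
  have hκZ : 0 ≤ κ * Z := by positivity
  have ha : (Fa.card : ℝ) ≤ C0 * E := by
    refine (h0 (η * Z) Fa hηZ fun z hz => ?_).trans ?_
    · rw [hFa] at hz
      have := (Finset.mem_filter.1 hz).2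
      have g1 := Height.logHeight_nonneg z.1.rep
      have g2 := Height.logHeight_nonneg z.2.rep
      exact ⟨by linarith, by linarith⟩
    · refine mul_le_mul_of_nonneg_left ?_ hC0.le
      rw [hE]
      apply Real.exp_le_exp.2
      have k1 : κ * Z ≤ η * Z := mul_le_mul_of_nonneg_right κ1 Z0
      have k2 : η * Z = m * Z / 16 := by rw [hη]; ring
      linarith
  have hmu : ∀ z ∈ Fb, ∃ U : Finset (Pr K), (∀ v ∈ U, v ∈ sps S A z.1 ∧ v ∈ sps S B z.2) ∧
      κ * Z ≤ Real.log (nn U) := by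
    intro z hz
    rw [hFb] at hz
    obtain ⟨hz1, hz2⟩ := Finset.mem_filter.1 hz
    obtain ⟨-, -, -, -, -, -, U, k5, k6⟩ := hF z hz1
    refine ⟨U, k5, le_trans ?_ k6⟩
    rw [not_le] at hz2
    have g1 := Height.logHeight_nonneg z.1.rep
    have g2 := Height.logHeight_nonneg z.2.rep
    calc κ * Z = e * (η * Z) := by rw [hκ]; ring
      _ ≤ e * (Height.logHeight z.1.rep + Height.logHeight z.2.rep) :=
          mul_le_mul_of_nonneg_left hz2.le e0.le
      _ ≤ _ := mul_le_mul_of_nonneg_right e1 (by linarith)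
  have hb : (Fb.card : ℝ) ≤ (C1 + C2) * E := by
    have hexp : Real.exp (θ₁ * L + θ₂ * L' + 2 * δ * Z - κ * Z) ≤ E := by
      rw [hE]
      apply Real.exp_le_exp.2
      have : 2 * δ * Z = κ * Z / 8 := by rw [hδ]; ring
      linarith
    by_cases hc : κ * Z ≤ θ₂ * L'
    · have h3 := h1 L L' (κ * Z) Fb hL hL' (by rw [← hθ₂]; exact hc) fun z hz => by
        have hzF : z ∈ F := by
          rw [hFb] at hz
          exact (Finset.mem_filter.1 hz).1
        obtain ⟨k1, k2, k3, -, -, k4, -⟩ := hF z hzF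
        exact ⟨k1, k2, k3, k4, hmu z hz⟩
      rw [← hθ₁, ← hθ₂, ← hZ] at h3
      refine h3.trans ?_
      calc _ ≤ C1 * E := mul_le_mul_of_nonneg_left hexp hC1.le
        _ ≤ _ := by nlinarith
    · have hc' : κ * Z ≤ θ₁ * L := by
        have k1 : κ * Z ≤ η * Z := mul_le_mul_of_nonneg_right κ1 Z0
        have k2 : η * Z = m * Z / 16 := by rw [hη]; ring
        rw [not_le] at hc
        have : 0 ≤ m * Z := by positivity
        linarith
      have h3 := h2 L' L (κ * Z) (Fb.image Prod.swap) hL' hL (by rw [← hθ₁]; exact hc')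
        fun w hw => by
          obtain ⟨z, hz, rfl⟩ := Finset.mem_image.1 hw
          have hzF : z ∈ F := by
            rw [hFb] at hz
            exact (Finset.mem_filter.1 hz).1
          obtain ⟨k1, k2, -, k3, k4, -, -⟩ := hF z hzF
          obtain ⟨U, k5, k6⟩ := hmu z hz
          exact ⟨k2, k1, k3, k4, U, fun v hv => ⟨(k5 v hv).2, (k5 v hv).1⟩, k6⟩
      rw [Finset.card_image_of_injective _ Prod.swap_injective, ← hθ₁, ← hθ₂] at h3
      have e3 : θ₂ * L' + θ₁ * L + 2 * δ * (L' + L) - κ * Z =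
          θ₁ * L + θ₂ * L' + 2 * δ * Z - κ * Z := by rw [hZ]; ring
      rw [e3] at h3
      refine h3.trans ?_
      calc _ ≤ C2 * E := mul_le_mul_of_nonneg_left hexp hC2.le
        _ ≤ _ := by nlinarith
  rw [hcard]
  push_cast
  linarith

end Pool.Agent.Y911.PP
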