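import Pool.Agent.Y911.PP.Sup

/-!
Pairs of points of the projective line with a large common support.
-/

set_option autoImplicit false

namespace Pool.Agent.Y911.PP

open NumberField IsDedekindDomain Finset
open Pool.Agent.H691R3 Pool.Agent.TH876.Loc
open Pool.Agent.Y911.RR (Meet pow_card_le)

/-- the points of bounded height which meet `B` at many primes of a given set -/
theorem fix_count (K : Type) [Field K] [NumberField K] (r : ℕ) (δ : ℝ) (hδ : 0 < δ) :
    ∃ C : ℝ, 1 ≤ C ∧ ∀ (B : Fin r → Projectivization K (Fin 2 → K)) (W : Finset (Pr K))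
      (G : Finset (Projectivization K (Fin 2 → K))) (T M : ℝ), 0 < M →
      (∀ Q ∈ G, Height.logHeight Q.rep ≤ T) →
      (∀ Q ∈ G, ∃ U : Finset (Pr K), U ⊆ W ∧ M ≤ nn U ∧ ∀ v ∈ U, ∃ j, Meet v Q (B j)) →
      (G.card : ℝ) ≤ C * nn W ^ δ * (Real.exp (2 * T) / M + 1) := by
  classical
  obtain ⟨C1, hC1, h1⟩ := pack_le K
  obtain ⟨C2, hC2, h2⟩ := pow_card_le K ((r : ℝ) + 1) (by linarith [Nat.cast_nonneg (α := ℝ) r]) δ hδ
  refine ⟨max 1 (C1 * C2), le_max_left _ _, ?_⟩
  intro B W G T M hM hT hU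
  have hW := nn_pos W
  rcases G.eq_empty_or_nonempty with hG | ⟨Q₁, hQ₁⟩
  · rw [hG]
    simp only [Finset.card_empty, Nat.cast_zero]
    have : (0 : ℝ) < max 1 (C1 * C2) := lt_of_lt_of_le one_pos (le_max_left _ _)
    positivity
  have hex : ∀ Q : Projectivization K (Fin 2 → K), ∃ (U : Finset (Pr K))
      (j : Pr K → Option (Fin r)), Q ∈ G → U ⊆ W ∧ M ≤ nn U ∧
        ∀ v ∈ U, ∃ i, j v = some i ∧ Meet v Q (B i) := by
    intro Q
    by_cases hQ : Q ∈ G
    · obtain ⟨U, hU1, hU2, hU3⟩ := hU Q hQ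
      refine ⟨U, fun v => if h : v ∈ U then some (hU3 v h).choose else none, fun _ =>
        ⟨hU1, hU2, fun v hv => ⟨(hU3 v hv).choose, ?_, (hU3 v hv).choose_spec⟩⟩⟩
      exact dif_pos hv
    · exact ⟨∅, fun _ => none, fun h => absurd h hQ⟩
  choose U j hUj using hex
  obtain ⟨f, hf⟩ : ∃ f : Projectivization K (Fin 2 → K) → ({v // v ∈ W} → Option (Fin r)),
      f = fun Q v => if v.1 ∈ U Q then j Q v.1 else none := ⟨_, rfl⟩
  obtain ⟨n, hn⟩ : ∃ n : ℕ, n = ⌊C1 * (Real.exp (2 * T) / M + 1)⌋₊ := ⟨_, rfl⟩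
  have hB0 : 0 ≤ C1 * (Real.exp (2 * T) / M + 1) := by positivity
  have hfib : ∀ a ∈ G.image f, (G.filter fun Q => f Q = a).card ≤ n := by
    intro a ha
    obtain ⟨Q0, hQ0, rfl⟩ := Finset.mem_image.1 ha
    obtain ⟨k1, k2, k3⟩ := hUj Q0 hQ0
    have hB : ∃ B' : Pr K → Projectivization K (Fin 2 → K),
        ∀ v ∈ U Q0, ∀ i, j Q0 v = some i → B' v = B i := by
      refine ⟨fun v => if h : (j Q0 v).isSome then B ((j Q0 v).get h) else Q0, ?_⟩
      intro v hv i hi
      have hs : (j Q0 v).isSome := by rw [hi]; rfl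
      have e : (fun v => if h : (j Q0 v).isSome then B ((j Q0 v).get h) else Q0) v =
          B ((j Q0 v).get hs) := dif_pos hs
      rw [e]
      congr 1
      exact Option.get_of_eq_some hs hi
    obtain ⟨B', hB'⟩ := hB
    have h3 := h1 (G.filter fun Q => f Q = f Q0) (U Q0) B' T
      (fun Q hQ => hT Q (Finset.mem_filter.1 hQ).1) ?_
    · rw [hn]
      apply Nat.le_floor
      refine h3.trans (mul_le_mul_of_nonneg_left ?_ (by linarith))
      have : Real.exp (2 * T) / nn (U Q0) ≤ Real.exp (2 * T) / M :=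
        div_le_div_of_nonneg_left (Real.exp_pos _).le hM k2
      linarith
    · intro Q hQ v hv
      obtain ⟨hQG, hQf⟩ := Finset.mem_filter.1 hQ
      obtain ⟨m1, m2, m3⟩ := hUj Q hQG
      obtain ⟨i, hi, _⟩ := k3 v hv
      have e := congrFun hQf ⟨v, k1 hv⟩
      rw [hf] at e
      simp only [if_pos hv] at e
      by_cases hvQ : v ∈ U Q
      · rw [if_pos hvQ] at e
        obtain ⟨i', hi', hm⟩ := m3 v hvQ
        have : i' = i := by
          rw [hi', hi] at e
          exact Option.some.inj e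
        rw [hB' v hv i hi, ← this]
        exact hm
      · rw [if_neg hvQ, hi] at e
        exact absurd e (by simp)
  have h3 := Finset.card_le_mul_card_image G n hfib
  have h4 : (G.image f).card ≤ (r + 1) ^ W.card := by
    refine (Finset.card_le_univ _).trans ?_
    rw [Fintype.card_fun, Fintype.card_option, Fintype.card_fin, Fintype.card_coe]
  have h5 : (G.card : ℝ) ≤ (n : ℝ) * ((r : ℝ) + 1) ^ W.card := by
    have : (G.card : ℝ) ≤ (n : ℝ) * ((G.image f).card : ℝ) := by exact_mod_cast h3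
    refine this.trans (mul_le_mul_of_nonneg_left ?_ (Nat.cast_nonneg _))
    exact_mod_cast h4
  have h6 : (n : ℝ) ≤ C1 * (Real.exp (2 * T) / M + 1) := by
    rw [hn]
    exact Nat.floor_le hB0
  have h7 : 0 ≤ Real.exp (2 * T) / M + 1 := by positivity
  calc (G.card : ℝ) ≤ (n : ℝ) * ((r : ℝ) + 1) ^ W.card := h5
    _ ≤ (C1 * (Real.exp (2 * T) / M + 1)) * (C2 * nn W ^ δ) :=
        mul_le_mul h6 (h2 W) (by positivity) hB0
    _ = (C1 * C2) * nn W ^ δ * (Real.exp (2 * T) / M + 1) := by ring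
    _ ≤ max 1 (C1 * C2) * nn W ^ δ * (Real.exp (2 * T) / M + 1) := by
        refine mul_le_mul_of_nonneg_right ?_ h7
        exact mul_le_mul_of_nonneg_right (le_max_right _ _) (by positivity)

variable {K : Type} [Field K] [NumberField K] {q r : ℕ}

open Classical in
/-- pairs with a large common support, counted by the first coordinate -/
theorem gcd_one (S : Set (Pr K)) (hS : S.Finite) (hq : 3 ≤ q)
    {A : Fin q → Projectivization K (Fin 2 → K)} (hA : Function.Injective A)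
    (B : Fin r → Projectivization K (Fin 2 → K)) (δ : ℝ) (hδ : 0 < δ) :
    ∃ C : ℝ, 0 < C ∧ ∀ (X T M : ℝ)
      (F : Finset (Projectivization K (Fin 2 → K) × Projectivization K (Fin 2 → K))), 1 ≤ X →
      0 < M → (∀ z ∈ F, (∀ l, z.1 ≠ A l) ∧ (∀ l, z.2 ≠ B l) ∧ nn (sps S A z.1) ≤ X ∧
        Height.logHeight z.2.rep ≤ T ∧ M ≤ nn (sps S A z.1 ∩ sps S B z.2)) →
      (F.card : ℝ) ≤ C * X ^ (2 / (q : ℝ) + 2 * δ) * (Real.exp (2 * T) / M + 1) := by
  obtain ⟨C1, hC1, h1⟩ := fix_count K r δ hδ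
  obtain ⟨C2, hC2, h2⟩ := pts_le S hS hq hA δ hδ
  refine ⟨C1 * C2, by positivity, ?_⟩
  intro X T M F hX hM hF
  have hX0 : 0 < X := by linarith
  have h7 : 0 ≤ Real.exp (2 * T) / M + 1 := by positivity
  have hB0 : 0 ≤ C1 * X ^ δ * (Real.exp (2 * T) / M + 1) := by positivity
  have hfib : ∀ a ∈ F.image Prod.fst, (F.filter fun z => z.1 = a).card ≤
      ⌊C1 * X ^ δ * (Real.exp (2 * T) / M + 1)⌋₊ := by
    intro P hP
    obtain ⟨z₀, hz₀, e₀⟩ := Finset.mem_image.1 hP
    apply Nat.le_floor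
    have hinj : Set.InjOn Prod.snd (↑(F.filter fun z => z.1 = P) :
        Set (Projectivization K (Fin 2 → K) × Projectivization K (Fin 2 → K))) := by
      intro z hz z' hz' h
      have e1 := (Finset.mem_filter.1 (Finset.mem_coe.1 hz)).2
      have e2 := (Finset.mem_filter.1 (Finset.mem_coe.1 hz')).2
      exact Prod.ext (e1.trans e2.symm) h
    rw [← Finset.card_image_of_injOn hinj]
    refine (h1 B (sps S A P) ((F.filter fun z => z.1 = P).image Prod.snd) T M hM ?_ ?_).trans ?_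
    · intro Q hQ
      obtain ⟨z, hz, rfl⟩ := Finset.mem_image.1 hQ
      exact (hF z (Finset.mem_filter.1 hz).1).2.2.2.1
    · intro Q hQ
      obtain ⟨z, hz, rfl⟩ := Finset.mem_image.1 hQ
      obtain ⟨hz1, hz2⟩ := Finset.mem_filter.1 hz
      obtain ⟨k1, k2, k3, k4, k5⟩ := hF z hz1
      rw [hz2] at k5
      refine ⟨sps S A P ∩ sps S B z.2, Finset.inter_subset_left, k5, fun v hv => ?_⟩
      exact ((mem_sps k2).1 (Finset.mem_inter.1 hv).2).2
    · refine mul_le_mul_of_nonneg_right (mul_le_mul_of_nonneg_left ?_ (by linarith)) h7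
      refine Real.rpow_le_rpow (nn_pos _).le ?_ hδ.le
      rw [← e₀]
      exact (hF z₀ hz₀).2.2.1
  have h3 := Finset.card_le_mul_card_image F _ hfib
  have h4 : ((F.image Prod.fst).card : ℝ) ≤ C2 * X ^ (2 / (q : ℝ) + δ) := by
    obtain ⟨k1, k2⟩ := h2 X hX
    refine le_trans ?_ k2
    rw [← Set.ncard_coe_finset]
    have : ((F.image Prod.fst : Finset (Projectivization K (Fin 2 → K))) : Set _) ⊆
        Pts S A X := by
      intro P hP
      obtain ⟨z, hz, rfl⟩ := Finset.mem_image.1 (Finset.mem_coe.1 hP)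
      obtain ⟨m1, m2, m3, m4, m5⟩ := hF z hz
      exact ⟨m1, m3⟩
    exact_mod_cast Set.ncard_le_ncard this k1
  calc (F.card : ℝ) ≤ (⌊C1 * X ^ δ * (Real.exp (2 * T) / M + 1)⌋₊ : ℝ) *
        ((F.image Prod.fst).card : ℝ) := by exact_mod_cast h3
    _ ≤ (C1 * X ^ δ * (Real.exp (2 * T) / M + 1)) * (C2 * X ^ (2 / (q : ℝ) + δ)) :=
        mul_le_mul (Nat.floor_le hB0) h4 (Nat.cast_nonneg _) hB0
    _ = C1 * C2 * (X ^ (2 / (q : ℝ) + δ) * X ^ δ) * (Real.exp (2 * T) / M + 1) := by ring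
    _ = C1 * C2 * X ^ (2 / (q : ℝ) + 2 * δ) * (Real.exp (2 * T) / M + 1) := by
        rw [← Real.rpow_add hX0]
        congr 3
        ring

end Pool.Agent.Y911.PP
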