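import Pool.Agent.Y911.PP.Bad

/-!
Almost all points of the product of two projective lines: assembly.
-/

set_option autoImplicit false

namespace Pool.Agent.Y911.PP

open NumberField IsDedekindDomain Finset
open Pool.Agent.H691R3 Pool.Agent.TH876.Loc

variable {K : Type} [Field K] [NumberField K] {q r : ℕ}

/-- the points of the product with supports of norms at most `X` and `Y` -/
def Pts2 (S : Set (Pr K)) (A : Fin q → Projectivization K (Fin 2 → K))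
    (B : Fin r → Projectivization K (Fin 2 → K)) (X Y : ℝ) : Set (PPt K) :=
  Pts S A X ×ˢ Pts S B Y

open Classical in
/-- those with a small union of the supports -/
def Exc2 (S : Set (Pr K)) (A : Fin q → Projectivization K (Fin 2 → K))
    (B : Fin r → Projectivization K (Fin 2 → K)) (ε X Y : ℝ) : Set (PPt K) :=
  {z | z ∈ Pts2 S A B X Y ∧ Real.log (nn (sps S A z.1 ∪ sps S B z.2)) <
    ((q : ℝ) - ε) * Height.logHeight z.1.rep + ((r : ℝ) - ε) * Height.logHeight z.2.rep}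

theorem log_nn_nonneg (s : Finset (Pr K)) : 0 ≤ Real.log (nn s) := Real.log_nonneg (one_le_nn s)

open Classical in
theorem log_union_inter (s t : Finset (Pr K)) :
    Real.log (nn (s ∪ t)) + Real.log (nn (s ∩ t)) = Real.log (nn s) + Real.log (nn t) := by
  rw [← Real.log_mul (nn_pos _).ne' (nn_pos _).ne', ← Real.log_mul (nn_pos _).ne' (nn_pos _).ne']
  congr 1
  unfold nn
  exact Finset.prod_union_inter

/-- the height against the support -/
theorem coef_le {q : ℕ} (hq : 3 ≤ q) {δ ε' : ℝ} (hδ : 0 < δ) (h0 : 0 < ε') (h1 : ε' ≤ 1)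
    (h2 : ε' ≤ δ) : 1 / ((q : ℝ) - ε') ≤ 1 / (q : ℝ) + δ := by
  have hq3 : (3 : ℝ) ≤ q := by exact_mod_cast hq
  have hq0 : (0 : ℝ) < q := by linarith
  have hp : 0 < (q : ℝ) - ε' := by linarith
  rw [div_le_iff₀ hp]
  have e : (1 / (q : ℝ) + δ) * (q - ε') = 1 + (δ * q - ε' * (1 / q) - δ * ε') := by
    field_simp
    ring
  rw [e]
  have k1 : ε' * (1 / (q : ℝ)) ≤ ε' * 1 := by
    refine mul_le_mul_of_nonneg_left ?_ h0.le
    rw [div_le_iff₀ hq0]
    linarith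
  have k2 : δ * ε' ≤ δ * 1 := mul_le_mul_of_nonneg_left h1 hδ.le
  have k3 : δ * 3 ≤ δ * q := mul_le_mul_of_nonneg_left hq3 hδ.le
  linarith

theorem pts2_finite (S : Set (Pr K)) (hS : S.Finite) (hq : 3 ≤ q) (hr : 3 ≤ r)
    {A : Fin q → Projectivization K (Fin 2 → K)} (hA : Function.Injective A)
    {B : Fin r → Projectivization K (Fin 2 → K)} (hB : Function.Injective B) {X Y : ℝ}
    (hX : 1 ≤ X) (hY : 1 ≤ Y) : (Pts2 S A B X Y).Finite := by
  obtain ⟨C, -, h1⟩ := pts_le S hS hq hA 1 one_pos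
  obtain ⟨C', -, h2⟩ := pts_le S hS hr hB 1 one_pos
  exact (h1 X hX).1.prod (h2 Y hY).1

theorem pts2_count (S : Set (Pr K)) (hS : S.Finite) (hq : 3 ≤ q) (hr : 3 ≤ r)
    {A : Fin q → Projectivization K (Fin 2 → K)} (hA : Function.Injective A)
    {B : Fin r → Projectivization K (Fin 2 → K)} (hB : Function.Injective B) (δ : ℝ)
    (hδ : 0 < δ) :
    (∃ C : ℝ, ∀ X Y : ℝ, 1 ≤ X → 1 ≤ Y → (Pts2 S A B X Y).Finite ∧
      ((Pts2 S A B X Y).ncard : ℝ) ≤ C * (X ^ (2 / (q : ℝ) + δ) * Y ^ (2 / (r : ℝ) + δ))) ∧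
    ∃ X₀ : ℝ, ∀ X Y : ℝ, X₀ ≤ X → X₀ ≤ Y →
      X ^ (2 / (q : ℝ) - δ) * Y ^ (2 / (r : ℝ) - δ) ≤ ((Pts2 S A B X Y).ncard : ℝ) := by
  obtain ⟨C1, hC1, h1⟩ := pts_le S hS hq hA δ hδ
  obtain ⟨C2, hC2, h2⟩ := pts_le S hS hr hB δ hδ
  obtain ⟨X1, hX1, k1⟩ := pts_low S hS hq hA δ hδ
  obtain ⟨X2, hX2, k2⟩ := pts_low S hS hr hB δ hδ
  refine ⟨⟨C1 * C2, fun X Y hX hY => ⟨pts2_finite S hS hq hr hA hB hX hY, ?_⟩⟩,
    max X1 X2, fun X Y hX hY => ?_⟩
  · unfold Pts2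
    rw [Set.ncard_prod]
    push_cast
    have hX0 : 0 < X := by linarith
    calc _ ≤ (C1 * X ^ (2 / (q : ℝ) + δ)) * (C2 * Y ^ (2 / (r : ℝ) + δ)) :=
          mul_le_mul (h1 X hX).2 (h2 Y hY).2 (Nat.cast_nonneg _) (by positivity)
      _ = _ := by ring
  · unfold Pts2
    rw [Set.ncard_prod]
    push_cast
    have hX' : X1 ≤ X := (le_max_left _ _).trans hX
    have hY' : X2 ≤ Y := (le_max_right _ _).trans hY
    have hY0 : 0 < Y := by linarith
    exact mul_le_mul (k1 X hX') (k2 Y hY') (by positivity) (Nat.cast_nonneg _)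

/-- **Almost all points of the product.** -/
theorem main (S : Set (Pr K)) (hS : S.Finite) (hq : 3 ≤ q) (hr : 3 ≤ r)
    {A : Fin q → Projectivization K (Fin 2 → K)} (hA : Function.Injective A)
    {B : Fin r → Projectivization K (Fin 2 → K)} (hB : Function.Injective B) (ε : ℝ)
    (hε : 0 < ε) : ∃ ν X₀ : ℝ, 0 < ν ∧ 1 ≤ X₀ ∧ ∀ X Y : ℝ, X₀ ≤ X → X₀ ≤ Y →
      ((Exc2 S A B ε X Y).ncard : ℝ) ≤ (min X Y) ^ (-ν) * ((Pts2 S A B X Y).ncard : ℝ) := by
  classical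
  have hq3 : (3 : ℝ) ≤ q := by exact_mod_cast hq
  have hr3 : (3 : ℝ) ≤ r := by exact_mod_cast hr
  obtain ⟨δ, ν0, C0, hδ, hν0, hC0, hbad⟩ := bad_count S hS hq hr hA hB (ε / 2) (by positivity)
  obtain ⟨ε', hε'⟩ : ∃ ε', ε' = min (min 1 δ) (ε / 2) := ⟨_, rfl⟩
  have e0 : 0 < ε' := by rw [hε']; exact lt_min (lt_min one_pos hδ) (by positivity)
  have e1 : ε' ≤ 1 := by rw [hε']; exact (min_le_left _ _).trans (min_le_left _ _)
  have e2 : ε' ≤ δ := by rw [hε']; exact (min_le_left _ _).trans (min_le_right _ _)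
  have e3 : ε' ≤ ε / 2 := by rw [hε']; exact min_le_right _ _
  have hp1 : 0 < (q : ℝ) - ε' := by linarith
  have hp2 : 0 < (r : ℝ) - ε' := by linarith
  obtain ⟨ν1, X1, hν1, hX1, h1⟩ := exc_ratio S hS hq hA (M := 1 / ((q : ℝ) - ε'))
    (one_div_lt_one_div_of_lt hp1 (by linarith))
  obtain ⟨ν2, X2, hν2, hX2, h2⟩ := exc_ratio S hS hr hB (M := 1 / ((r : ℝ) - ε'))
    (one_div_lt_one_div_of_lt hp2 (by linarith))
  obtain ⟨X3, hX3, h3⟩ := pts_low S hS hq hA (ν0 / 4) (by positivity)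
  obtain ⟨X4, hX4, h4⟩ := pts_low S hS hr hB (ν0 / 4) (by positivity)
  obtain ⟨ν', hν'⟩ : ∃ ν', ν' = min (min ν1 ν2) (3 * ν0 / 4) := ⟨_, rfl⟩
  have n0 : 0 < ν' := by rw [hν']; exact lt_min (lt_min hν1 hν2) (by positivity)
  have n1 : ν' ≤ ν1 := by rw [hν']; exact (min_le_left _ _).trans (min_le_left _ _)
  have n2 : ν' ≤ ν2 := by rw [hν']; exact (min_le_left _ _).trans (min_le_right _ _)
  have n3 : ν' ≤ 3 * ν0 / 4 := by rw [hν']; exact min_le_right _ _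
  obtain ⟨X5, hX5⟩ : ∃ X5, X5 = Real.exp (Real.log (2 + C0) * (2 / ν')) := ⟨_, rfl⟩
  refine ⟨ν' / 2, max (max X1 X2) (max (max X3 X4) X5), by positivity,
    hX1.trans ((le_max_left _ _).trans (le_max_left _ _)), fun X Y hX hY => ?_⟩
  have a1 : X1 ≤ X := ((le_max_left _ _).trans (le_max_left _ _)).trans hX
  have a2 : X2 ≤ Y := ((le_max_right _ _).trans (le_max_left _ _)).trans hY
  have a3 : X3 ≤ X := ((le_max_left _ _).trans ((le_max_left _ _).trans (le_max_right _ _))).trans hX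
  have a4 : X4 ≤ Y := ((le_max_right _ _).trans ((le_max_left _ _).trans (le_max_right _ _))).trans hY
  have a5 : X5 ≤ X := ((le_max_right _ _).trans (le_max_right _ _)).trans hX
  have a6 : X5 ≤ Y := ((le_max_right _ _).trans (le_max_right _ _)).trans hY
  have hXone : 1 ≤ X := hX1.trans a1
  have hYone : 1 ≤ Y := hX2.trans a2
  have hX0 : 0 < X := by linarith
  have hY0 : 0 < Y := by linarith
  obtain ⟨L, hL⟩ : ∃ L, L = Real.log X := ⟨_, rfl⟩
  obtain ⟨L', hL'⟩ : ∃ L', L' = Real.log Y := ⟨_, rfl⟩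
  have hL0 : 0 ≤ L := by rw [hL]; exact Real.log_nonneg hXone
  have hL'0 : 0 ≤ L' := by rw [hL']; exact Real.log_nonneg hYone
  have hfin := pts2_finite S hS hq hr hA hB hXone hYone
  -- the three parts
  obtain ⟨F, hF⟩ : ∃ F : Set (PPt K), F = {z | z ∈ Exc2 S A B ε X Y ∧
      z.1 ∉ Exc S A (1 / ((q : ℝ) - ε')) X ∧ z.2 ∉ Exc S B (1 / ((r : ℝ) - ε')) Y} := ⟨_, rfl⟩
  have hFfin : F.Finite := by
    refine hfin.subset ?_
    rw [hF]
    exact fun z hz => hz.1.1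
  have hsub : Exc2 S A B ε X Y ⊆ (Exc S A (1 / ((q : ℝ) - ε')) X ×ˢ Pts S B Y ∪
      Pts S A X ×ˢ Exc S B (1 / ((r : ℝ) - ε')) Y) ∪ F := by
    intro z hz
    obtain ⟨hz1, hz2⟩ := hz.1
    by_cases g1 : z.1 ∈ Exc S A (1 / ((q : ℝ) - ε')) X
    · exact Or.inl (Or.inl ⟨g1, hz2⟩)
    by_cases g2 : z.2 ∈ Exc S B (1 / ((r : ℝ) - ε')) Y
    · exact Or.inl (Or.inr ⟨hz1, g2⟩)
    · rw [hF]
      exact Or.inr ⟨hz, g1, g2⟩
  have hFc : (F.ncard : ℝ) ≤ C0 * Real.exp (2 / (q : ℝ) * L + 2 / (r : ℝ) * L' -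
      ν0 * (L + L')) := by
    rw [Set.ncard_eq_toFinset_card F hFfin]
    refine hbad L L' hFfin.toFinset hL0 hL'0 fun z hz => ?_
    rw [Set.Finite.mem_toFinset, hF] at hz
    obtain ⟨⟨⟨⟨m1, m2⟩, m3, m4⟩, m5⟩, g1, g2⟩ := hz
    have l1 : Real.log (nn (sps S A z.1)) ≤ L := by
      rw [hL]
      exact Real.log_le_log (nn_pos _) m2
    have l2 : Real.log (nn (sps S B z.2)) ≤ L' := by
      rw [hL']
      exact Real.log_le_log (nn_pos _) m4
    have u1 : Height.logHeight z.1.rep < 1 / ((q : ℝ) - ε') * Real.log (nn (sps S A z.1)) := by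
      by_contra h
      exact g1 ⟨m1, m2, not_lt.1 h⟩
    have u2 : Height.logHeight z.2.rep < 1 / ((r : ℝ) - ε') * Real.log (nn (sps S B z.2)) := by
      by_contra h
      exact g2 ⟨m3, m4, not_lt.1 h⟩
    have w1 := Height.logHeight_nonneg z.1.rep
    have w2 := Height.logHeight_nonneg z.2.rep
    have v1 : ((q : ℝ) - ε') * Height.logHeight z.1.rep ≤ Real.log (nn (sps S A z.1)) := by
      rw [one_div, inv_mul_eq_div, lt_div_iff₀ hp1] at u1
      linarith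
    have v2 : ((r : ℝ) - ε') * Height.logHeight z.2.rep ≤ Real.log (nn (sps S B z.2)) := by
      rw [one_div, inv_mul_eq_div, lt_div_iff₀ hp2] at u2
      linarith
    refine ⟨m1, m3, l1, l2, ?_, ?_, sps S A z.1 ∩ sps S B z.2, fun v hv =>
      ⟨Finset.mem_of_mem_inter_left hv, Finset.mem_of_mem_inter_right hv⟩, ?_⟩
    · refine u1.le.trans ((mul_le_mul_of_nonneg_left l1 (by positivity)).trans ?_)
      exact mul_le_mul_of_nonneg_right (coef_le hq hδ e0 e1 e2) hL0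
    · refine u2.le.trans ((mul_le_mul_of_nonneg_left l2 (by positivity)).trans ?_)
      exact mul_le_mul_of_nonneg_right (coef_le hr hδ e0 e1 e2) hL'0
    · have hui := log_union_inter (sps S A z.1) (sps S B z.2)
      nlinarith
  -- the count
  obtain ⟨P1, hP1⟩ : ∃ P1 : ℝ, P1 = ((Pts S A X).ncard : ℝ) := ⟨_, rfl⟩
  obtain ⟨P2, hP2⟩ : ∃ P2 : ℝ, P2 = ((Pts S B Y).ncard : ℝ) := ⟨_, rfl⟩
  have hP1' : 0 ≤ P1 := by rw [hP1]; exact Nat.cast_nonneg _
  have hP2' : 0 ≤ P2 := by rw [hP2]; exact Nat.cast_nonneg _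
  have hprod : ((Pts2 S A B X Y).ncard : ℝ) = P1 * P2 := by
    unfold Pts2
    rw [Set.ncard_prod, hP1, hP2]
    push_cast
    rfl
  obtain ⟨C', -, hpA⟩ := pts_le S hS hq hA 1 one_pos
  obtain ⟨C'', -, hpB⟩ := pts_le S hS hr hB 1 one_pos
  have f1 : (Exc S A (1 / ((q : ℝ) - ε')) X).Finite := (hpA X hXone).1.subset (exc_pts S A _ X)
  have f2 : (Exc S B (1 / ((r : ℝ) - ε')) Y).Finite := (hpB Y hYone).1.subset (exc_pts S B _ Y)
  have hcard : ((Exc2 S A B ε X Y).ncard : ℝ) ≤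
      ((Exc S A (1 / ((q : ℝ) - ε')) X).ncard : ℝ) * P2 +
      P1 * ((Exc S B (1 / ((r : ℝ) - ε')) Y).ncard : ℝ) + (F.ncard : ℝ) := by
    have g1 := Set.ncard_le_ncard hsub (((f1.prod (hpB Y hYone).1).union
      ((hpA X hXone).1.prod f2)).union hFfin)
    have g2 := Set.ncard_union_le (Exc S A (1 / ((q : ℝ) - ε')) X ×ˢ Pts S B Y ∪
      Pts S A X ×ˢ Exc S B (1 / ((r : ℝ) - ε')) Y) F
    have g3 := Set.ncard_union_le (Exc S A (1 / ((q : ℝ) - ε')) X ×ˢ Pts S B Y)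
      (Pts S A X ×ˢ Exc S B (1 / ((r : ℝ) - ε')) Y)
    rw [Set.ncard_prod, Set.ncard_prod] at g3
    rw [hP1, hP2]
    have : (Exc2 S A B ε X Y).ncard ≤
        (Exc S A (1 / ((q : ℝ) - ε')) X).ncard * (Pts S B Y).ncard +
        (Pts S A X).ncard * (Exc S B (1 / ((r : ℝ) - ε')) Y).ncard + F.ncard := by
      omega
    exact_mod_cast this
  obtain ⟨m, hm⟩ : ∃ m, m = min X Y := ⟨_, rfl⟩
  have hm1 : 1 ≤ m := by rw [hm]; exact le_min hXone hYone
  have hm0 : 0 < m := by linarith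
  have hmX : m ≤ X := by rw [hm]; exact min_le_left _ _
  have hmY : m ≤ Y := by rw [hm]; exact min_le_right _ _
  have hm5 : X5 ≤ m := by rw [hm]; exact le_min a5 a6
  have hlm : 0 ≤ Real.log m := Real.log_nonneg hm1
  rw [hprod, ← hm]
  have b1 : X ^ (-ν1) ≤ m ^ (-ν') := by
    calc X ^ (-ν1) ≤ m ^ (-ν1) := Real.rpow_le_rpow_of_nonpos hm0 hmX (by linarith)
      _ ≤ m ^ (-ν') := Real.rpow_le_rpow_of_exponent_le hm1 (by linarith)
  have b2 : Y ^ (-ν2) ≤ m ^ (-ν') := by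
    calc Y ^ (-ν2) ≤ m ^ (-ν2) := Real.rpow_le_rpow_of_nonpos hm0 hmY (by linarith)
      _ ≤ m ^ (-ν') := Real.rpow_le_rpow_of_exponent_le hm1 (by linarith)
  have b3 : Real.exp (2 / (q : ℝ) * L + 2 / (r : ℝ) * L' - ν0 * (L + L')) ≤
      m ^ (-ν') * (P1 * P2) := by
    have k1 : Real.exp ((2 / (q : ℝ) - ν0 / 4) * L) ≤ P1 := by
      have := h3 X a3
      rw [Real.rpow_def_of_pos hX0, ← hL, mul_comm L, ← hP1] at this
      exact this
    have k2 : Real.exp ((2 / (r : ℝ) - ν0 / 4) * L') ≤ P2 := by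
      have := h4 Y a4
      rw [Real.rpow_def_of_pos hY0, ← hL', mul_comm L', ← hP2] at this
      exact this
    have k3 : Real.exp ((2 / (q : ℝ) - ν0 / 4) * L) * Real.exp ((2 / (r : ℝ) - ν0 / 4) * L') ≤
        P1 * P2 := mul_le_mul k1 k2 (Real.exp_pos _).le hP1'
    refine le_trans ?_ (mul_le_mul_of_nonneg_left k3 (Real.rpow_nonneg hm0.le _))
    rw [Real.rpow_def_of_pos hm0, ← Real.exp_add, ← Real.exp_add]
    apply Real.exp_le_exp.2
    have k4 : Real.log m ≤ L := by rw [hL]; exact Real.log_le_log hm0 hmX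
    have k5 : ν' * Real.log m ≤ 3 * ν0 / 4 * (L + L') := by
      calc ν' * Real.log m ≤ 3 * ν0 / 4 * Real.log m := mul_le_mul_of_nonneg_right n3 hlm
        _ ≤ 3 * ν0 / 4 * (L + L') := mul_le_mul_of_nonneg_left (by linarith) (by positivity)
    linarith
  have b4 : (2 + C0) * m ^ (-ν') ≤ m ^ (-(ν' / 2)) := by
    have k1 : Real.log (2 + C0) ≤ ν' / 2 * Real.log m := by
      have k2 : Real.log (2 + C0) * (2 / ν') ≤ Real.log m := by
        rw [Real.le_log_iff_exp_le hm0, ← hX5]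
        exact hm5
      have k3 := mul_le_mul_of_nonneg_left k2 (by positivity : 0 ≤ ν' / 2)
      have k4 : ν' / 2 * (Real.log (2 + C0) * (2 / ν')) = Real.log (2 + C0) := by
        field_simp
      linarith
    have k5 : 2 + C0 = Real.exp (Real.log (2 + C0)) := (Real.exp_log (by linarith)).symm
    rw [k5, Real.rpow_def_of_pos hm0, Real.rpow_def_of_pos hm0, ← Real.exp_add]
    apply Real.exp_le_exp.2
    linarith
  have hE1 := h1 X a1
  have hE2 := h2 Y a2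
  rw [← hP1] at hE1
  rw [← hP2] at hE2
  have hPP : 0 ≤ P1 * P2 := mul_nonneg hP1' hP2'
  calc ((Exc2 S A B ε X Y).ncard : ℝ) ≤ _ := hcard
    _ ≤ (m ^ (-ν') * P1) * P2 + P1 * (m ^ (-ν') * P2) + C0 * (m ^ (-ν') * (P1 * P2)) := by
        refine add_le_add (add_le_add ?_ ?_) ?_
        · exact mul_le_mul_of_nonneg_right
            (hE1.trans (mul_le_mul_of_nonneg_right b1 hP1')) hP2'
        · exact mul_le_mul_of_nonneg_left
            (hE2.trans (mul_le_mul_of_nonneg_right b2 hP2')) hP1'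
        · exact hFc.trans (mul_le_mul_of_nonneg_left b3 hC0.le)
    _ = ((2 + C0) * m ^ (-ν')) * (P1 * P2) := by ring
    _ ≤ m ^ (-(ν' / 2)) * (P1 * P2) := mul_le_mul_of_nonneg_right b4 hPP

end Pool.Agent.Y911.PP
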