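import Pool.Agent.Y557.NF.Line
import Pool.Agent.Y911.RR.Pts

/-!
Points of the projective line over a number field in given residue classes: a packing bound.
-/

set_option autoImplicit false

namespace Pool.Agent.Y911.PP

open NumberField IsDedekindDomain Finset
open Pool.Agent.TH876.KR (form localHeight localHeight_nonneg localHeight_eq localHeight_pos_iff
  m2 form_le good_finite Good m2_of_good recover0 recover1 log_nn log_Nv_pos' fv_sub_le)
open Pool.Agent.H691R3 Pool.Agent.TH876.Loc
open Pool.Agent.Y557.NF (logHeight_sum product_log ne_of_form w2_pos m2_pos)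
open Pool.Agent.Y730.QP (log_Nv_le_localHeight)
open Pool.Agent.Y911.RR (Meet meet_iff fv_form_comm form_rep_ne)

variable {K : Type} [Field K] [NumberField K]

/-- points which are close at all archimedean places -/
theorem sum_lh_close {a x : Fin 2 → K} (h : form a x ≠ 0) (V : Finset (Pr K)) {δ : ℝ} (hδ : 0 < δ)
    (hc : ∀ w : InfinitePlace K, w (form a x) ≤
      δ * (max (w (a 0)) (w (a 1)) * max (w (x 0)) (w (x 1)))) :
    ∑ v ∈ V, localHeight v a x ≤
      Height.logHeight a + Height.logHeight x + (Module.finrank ℚ K : ℝ) * Real.log δ := by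
  classical
  obtain ⟨ha, hx⟩ := ne_of_form h
  -- enlarge the set of primes
  obtain ⟨W, hW⟩ : ∃ W : Finset (Pr K), W = V ∪ ((good_finite a).toFinset ∪
      ((good_finite x).toFinset ∪ (fv_support_finite h).toFinset)) := ⟨_, rfl⟩
  have hVW : V ⊆ W := by rw [hW]; exact Finset.subset_union_left
  have g1 : ∀ v, v ∉ W → m2 v a = 1 := by
    intro v hv
    refine m2_of_good ha ?_
    by_contra hcon
    apply hv
    rw [hW]
    refine Finset.mem_union_right _ (Finset.mem_union_left _ ?_)
    rw [Set.Finite.mem_toFinset]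
    exact hcon
  have g2 : ∀ v, v ∉ W → m2 v x = 1 := by
    intro v hv
    refine m2_of_good hx ?_
    by_contra hcon
    apply hv
    rw [hW]
    refine Finset.mem_union_right _ (Finset.mem_union_right _ (Finset.mem_union_left _ ?_))
    rw [Set.Finite.mem_toFinset]
    exact hcon
  have g3 : ∀ v, v ∉ W → fv v (form a x) = 1 := by
    intro v hv
    by_contra hcon
    apply hv
    rw [hW]
    refine Finset.mem_union_right _ (Finset.mem_union_right _ (Finset.mem_union_right _ ?_))
    rw [Set.Finite.mem_toFinset]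
    exact hcon
  have e1 : ∑ v ∈ V, localHeight v a x ≤ ∑ v ∈ W, localHeight v a x :=
    Finset.sum_le_sum_of_subset_of_nonneg hVW fun v _ _ => localHeight_nonneg v h
  have e2 : ∑ v ∈ W, localHeight v a x =
      ∑ v ∈ W, Real.log (m2 v a) + ∑ v ∈ W, Real.log (m2 v x) -
        ∑ v ∈ W, Real.log (fv v (form a x)) := by
    rw [← Finset.sum_add_distrib, ← Finset.sum_sub_distrib]
    refine Finset.sum_congr rfl fun v _ => ?_
    rw [localHeight_eq, Real.log_div, Real.log_mul (m2_pos v ha).ne' (m2_pos v hx).ne']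
    · exact (mul_pos (m2_pos v ha) (m2_pos v hx)).ne'
    · exact ((fv v).pos h).ne'
  have e3 := logHeight_sum ha W g1
  have e4 := logHeight_sum hx W g2
  have e5 := product_log h W g3
  have e6 : ∑ w : InfinitePlace K, (w.mult : ℝ) * Real.log (w (form a x)) ≤
      ∑ w : InfinitePlace K, ((w.mult : ℝ) * Real.log δ +
        ((w.mult : ℝ) * Real.log (max (w (a 0)) (w (a 1))) +
        (w.mult : ℝ) * Real.log (max (w (x 0)) (w (x 1))))) := by
    refine Finset.sum_le_sum fun w _ => ?_
    rw [← mul_add, ← mul_add]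
    refine mul_le_mul_of_nonneg_left ?_ (Nat.cast_nonneg _)
    have p1 := w2_pos w ha
    have p2 := w2_pos w hx
    rw [← Real.log_mul p1.ne' p2.ne', ← Real.log_mul hδ.ne' (mul_pos p1 p2).ne']
    exact Real.log_le_log (w.pos_iff.2 h) (hc w)
  rw [Finset.sum_add_distrib, Finset.sum_add_distrib, ← Finset.sum_mul] at e6
  have e7 : ∑ w : InfinitePlace K, (w.mult : ℝ) = Module.finrank ℚ K := by
    exact_mod_cast InfinitePlace.sum_mult_eq (K := K)
  rw [e7] at e6
  linarith

/-! ### same reduction -/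

theorem meet_trans (v : Pr K) {P Q R : Projectivization K (Fin 2 → K)} (h1 : Meet v P R)
    (h2 : Meet v Q R) : Meet v P Q := by
  rw [meet_iff] at h1 h2 ⊢
  have hP := m2_pos v P.rep_nonzero
  have hQ := m2_pos v Q.rep_nonzero
  have hR := m2_pos v R.rep_nonzero
  have key : ∀ j : Fin 2, fv v (form P.rep Q.rep) * fv v (R.rep j) <
      m2 v P.rep * m2 v Q.rep * m2 v R.rep := by
    intro j
    have e : Q.rep j * form P.rep R.rep - P.rep j * form Q.rep R.rep =
        form P.rep Q.rep * R.rep j := by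
      fin_cases j
      · exact recover0 _ _ _
      · exact recover1 _ _ _
    rw [← map_mul, ← e]
    refine lt_of_le_of_lt (fv_sub_le v _ _) (max_lt ?_ ?_)
    · rw [map_mul]
      have hj : fv v (Q.rep j) ≤ m2 v Q.rep := by
        fin_cases j
        · exact le_max_left _ _
        · exact le_max_right _ _
      calc fv v (Q.rep j) * fv v (form P.rep R.rep) ≤ m2 v Q.rep * fv v (form P.rep R.rep) :=
            mul_le_mul_of_nonneg_right hj ((fv v).nonneg _)
        _ < m2 v Q.rep * (m2 v P.rep * m2 v R.rep) := mul_lt_mul_of_pos_left h1 hQ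
        _ = _ := by ring
    · rw [map_mul]
      have hj : fv v (P.rep j) ≤ m2 v P.rep := by
        fin_cases j
        · exact le_max_left _ _
        · exact le_max_right _ _
      calc fv v (P.rep j) * fv v (form Q.rep R.rep) ≤ m2 v P.rep * fv v (form Q.rep R.rep) :=
            mul_le_mul_of_nonneg_right hj ((fv v).nonneg _)
        _ < m2 v P.rep * (m2 v Q.rep * m2 v R.rep) := mul_lt_mul_of_pos_left h2 hP
        _ = _ := by ring
  have h3 : fv v (form P.rep Q.rep) * m2 v R.rep < m2 v P.rep * m2 v Q.rep * m2 v R.rep := by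
    unfold m2 at *
    rcases max_choice (fv v (R.rep 0)) (fv v (R.rep 1)) with h | h
    · rw [h] at key ⊢
      exact key 0
    · rw [h] at key ⊢
      exact key 1
  exact lt_of_mul_lt_mul_right h3 hR.le

/-! ### cells at the archimedean places -/

/-- the coordinate in the unit disc -/
noncomputable def zz (w : InfinitePlace K) (x : Fin 2 → K) : ℂ :=
  if w (x 0) ≤ w (x 1) then w.embedding (x 0) / w.embedding (x 1)
  else w.embedding (x 1) / w.embedding (x 0)

/-- the cell of a point -/
noncomputable def cell (n : ℕ) (w : InfinitePlace K) (x : Fin 2 → K) : Bool × ℤ × ℤ :=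
  (decide (w (x 0) ≤ w (x 1)), ⌊(n : ℝ) * (zz w x).re⌋, ⌊(n : ℝ) * (zz w x).im⌋)

/-- the set of all cells -/
noncomputable def cells (n : ℕ) (w : InfinitePlace K) : Finset (Bool × ℤ × ℤ) :=
  open Classical in
  if w.IsReal then univ ×ˢ (Icc (-(n : ℤ)) n ×ˢ {0})
  else univ ×ˢ (Icc (-(n : ℤ)) n ×ˢ Icc (-(n : ℤ)) n)

omit [NumberField K] in
theorem zz_le (w : InfinitePlace K) (x : Fin 2 → K) : ‖zz w x‖ ≤ 1 := by
  unfold zz
  split_ifs with h
  · rw [norm_div, InfinitePlace.norm_embedding_eq, InfinitePlace.norm_embedding_eq]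
    exact div_le_one_of_le₀ h (apply_nonneg w _)
  · rw [norm_div, InfinitePlace.norm_embedding_eq, InfinitePlace.norm_embedding_eq]
    exact div_le_one_of_le₀ (not_le.1 h).le (apply_nonneg w _)

omit [NumberField K] in
theorem zz_im (w : InfinitePlace K) (hw : w.IsReal) (x : Fin 2 → K) : (zz w x).im = 0 := by
  have h : ∀ z : K, (w.embedding z).im = 0 := by
    intro z
    have h1 := InfinitePlace.isReal_iff.1 hw
    have h2 := RingHom.congr_fun (ComplexEmbedding.isReal_iff.1 h1) z
    exact Complex.conj_eq_iff_im.1 h2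
  unfold zz
  split_ifs
  · rw [Complex.div_im, h, h]
    simp
  · rw [Complex.div_im, h, h]
    simp

theorem cell_mem (n : ℕ) (w : InfinitePlace K) (x : Fin 2 → K) : cell n w x ∈ cells n w := by
  have hn : (0 : ℝ) ≤ n := Nat.cast_nonneg n
  have h1 := zz_le w x
  have fl : ∀ t : ℝ, |t| ≤ 1 → ⌊(n : ℝ) * t⌋ ∈ Icc (-(n : ℤ)) n := by
    intro t ht
    have := abs_le.1 ht
    rw [Finset.mem_Icc]
    constructor
    · rw [Int.le_floor]
      push_cast
      nlinarith
    · have h2 : (⌊(n : ℝ) * t⌋ : ℝ) ≤ (n : ℝ) * t := Int.floor_le _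
      have h3 : (⌊(n : ℝ) * t⌋ : ℝ) ≤ ((n : ℤ) : ℝ) := by
        push_cast
        nlinarith
      exact_mod_cast h3
  have hre := (Complex.abs_re_le_norm (zz w x)).trans h1
  have him := (Complex.abs_im_le_norm (zz w x)).trans h1
  unfold cells cell
  split_ifs with hw
  · rw [Finset.mem_product, Finset.mem_product]
    refine ⟨Finset.mem_univ _, fl _ hre, ?_⟩
    rw [Finset.mem_singleton, zz_im w hw]
    simp
  · rw [Finset.mem_product, Finset.mem_product]
    exact ⟨Finset.mem_univ _, fl _ hre, fl _ him⟩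

omit [NumberField K] in
theorem cells_card (n : ℕ) (w : InfinitePlace K) : (cells n w).card = 2 * (2 * n + 1) ^ w.mult := by
  have h1 : (Icc (-(n : ℤ)) n).card = 2 * n + 1 := by
    rw [Int.card_Icc]
    omega
  unfold cells
  split_ifs with hw
  · rw [Finset.card_product, Finset.card_product, h1, Finset.card_univ, Fintype.card_bool,
      Finset.card_singleton, InfinitePlace.mult, if_pos hw]
    ring
  · rw [Finset.card_product, Finset.card_product, h1, Finset.card_univ, Fintype.card_bool,
      InfinitePlace.mult, if_neg hw]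
    ring

theorem cell_close {n : ℕ} (hn : 0 < n) (w : InfinitePlace K) {x y : Fin 2 → K} (hx : x ≠ 0)
    (hy : y ≠ 0) (h : cell n w x = cell n w y) :
    w (form x y) ≤ 2 / (n : ℝ) * (max (w (x 0)) (w (x 1)) * max (w (y 0)) (w (y 1))) := by
  have hnR : (0 : ℝ) < n := by exact_mod_cast hn
  unfold cell at h
  rw [Prod.mk.injEq, Prod.mk.injEq, decide_eq_decide] at h
  obtain ⟨h1, h2, h3⟩ := h
  have k2 := Int.abs_sub_lt_one_of_floor_eq_floor h2
  have k3 := Int.abs_sub_lt_one_of_floor_eq_floor h3
  rw [← mul_sub, abs_mul, abs_of_pos hnR] at k2 k3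
  have k4 : ‖zz w x - zz w y‖ ≤ 2 / n := by
    refine (Complex.norm_le_abs_re_add_abs_im _).trans ?_
    rw [Complex.sub_re, Complex.sub_im, le_div_iff₀ hnR]
    nlinarith
  have p1 := w2_pos w hx
  have p2 := w2_pos w hy
  by_cases hb : w (x 0) ≤ w (x 1)
  · have hb' := h1.1 hb
    rw [max_eq_right hb] at p1 ⊢
    rw [max_eq_right hb'] at p2 ⊢
    have q1 : w.embedding (x 1) ≠ 0 := by
      rw [← norm_ne_zero_iff, InfinitePlace.norm_embedding_eq]
      exact p1.ne'
    have q2 : w.embedding (y 1) ≠ 0 := by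
      rw [← norm_ne_zero_iff, InfinitePlace.norm_embedding_eq]
      exact p2.ne'
    have e : w.embedding (form x y) =
        (zz w x - zz w y) * (w.embedding (x 1) * w.embedding (y 1)) := by
      unfold zz form
      rw [if_pos hb, if_pos hb', map_sub, map_mul, map_mul]
      field_simp
    rw [← InfinitePlace.norm_embedding_eq w (form x y), e, norm_mul, norm_mul,
      InfinitePlace.norm_embedding_eq, InfinitePlace.norm_embedding_eq]
    exact mul_le_mul_of_nonneg_right k4 (mul_nonneg p1.le p2.le)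
  · have hb' : ¬ w (y 0) ≤ w (y 1) := fun h => hb (h1.2 h)
    rw [max_eq_left (not_le.1 hb).le] at p1 ⊢
    rw [max_eq_left (not_le.1 hb').le] at p2 ⊢
    have q1 : w.embedding (x 0) ≠ 0 := by
      rw [← norm_ne_zero_iff, InfinitePlace.norm_embedding_eq]
      exact p1.ne'
    have q2 : w.embedding (y 0) ≠ 0 := by
      rw [← norm_ne_zero_iff, InfinitePlace.norm_embedding_eq]
      exact p2.ne'
    have e : w.embedding (form x y) =
        -(zz w x - zz w y) * (w.embedding (x 0) * w.embedding (y 0)) := by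
      unfold zz form
      rw [if_neg hb, if_neg hb', map_sub, map_mul, map_mul]
      field_simp
      ring
    rw [← InfinitePlace.norm_embedding_eq w (form x y), e, norm_mul, norm_mul, norm_neg,
      InfinitePlace.norm_embedding_eq, InfinitePlace.norm_embedding_eq]
    exact mul_le_mul_of_nonneg_right k4 (mul_nonneg p1.le p2.le)

/-- **Packing.** -/
theorem pack (G : Finset (Projectivization K (Fin 2 → K))) (U : Finset (Pr K))
    (B : Pr K → Projectivization K (Fin 2 → K)) (T : ℝ) (n : ℕ) (hn : 0 < n)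
    (hT : ∀ P ∈ G, Height.logHeight P.rep ≤ T) (hU : ∀ P ∈ G, ∀ v ∈ U, Meet v P (B v))
    (hlt : 2 * T + (Module.finrank ℚ K : ℝ) * Real.log (2 / n) < Real.log (nn U)) :
    G.card ≤ 2 ^ Fintype.card (InfinitePlace K) * (2 * n + 1) ^ Module.finrank ℚ K := by
  classical
  have hnR : (0 : ℝ) < n := by exact_mod_cast hn
  have h1 : G.card ≤ (Fintype.piFinset (cells (K := K) n)).card := by
    refine Finset.card_le_card_of_injOn (fun P w => cell n w P.rep) ?_ ?_
    · intro P _
      rw [Finset.mem_coe, Fintype.mem_piFinset]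
      exact fun w => cell_mem n w P.rep
    · intro P hP Q hQ hPQ
      by_contra hne
      have hf := form_rep_ne hne
      have h2 := sum_lh_close hf U (δ := 2 / n) (by positivity) fun w =>
        cell_close hn w P.rep_nonzero Q.rep_nonzero (congrFun hPQ w)
      have h3 : Real.log (nn U) ≤ ∑ v ∈ U, localHeight v P.rep Q.rep := by
        rw [log_nn]
        refine Finset.sum_le_sum fun v hv => log_Nv_le_localHeight v hf ?_
        rw [localHeight_pos_iff v hf, ← meet_iff]
        exact meet_trans v (hU P hP v hv) (hU Q hQ v hv)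
      have h4 := hT P hP
      have h5 := hT Q hQ
      linarith
  rw [Fintype.card_piFinset] at h1
  simp only [cells_card] at h1
  rw [Finset.prod_mul_distrib, Finset.prod_const, Finset.prod_pow_eq_pow_sum,
    InfinitePlace.sum_mult_eq, Finset.card_univ] at h1
  exact h1

/-- the number of points of bounded height in given residue classes -/
theorem pack_le (K : Type) [Field K] [NumberField K] : ∃ C : ℝ, 1 ≤ C ∧
    ∀ (G : Finset (Projectivization K (Fin 2 → K))) (U : Finset (Pr K))
      (B : Pr K → Projectivization K (Fin 2 → K)) (T : ℝ),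
      (∀ P ∈ G, Height.logHeight P.rep ≤ T) → (∀ P ∈ G, ∀ v ∈ U, Meet v P (B v)) →
      (G.card : ℝ) ≤ C * (Real.exp (2 * T) / nn U + 1) := by
  obtain ⟨d, hd⟩ : ∃ d, d = Module.finrank ℚ K := ⟨_, rfl⟩
  have hd0 : 0 < d := by rw [hd]; exact Module.finrank_pos
  have hdR : (0 : ℝ) < d := by exact_mod_cast hd0
  refine ⟨2 ^ Fintype.card (InfinitePlace K) * 7 ^ d, ?_, ?_⟩
  · have h1 : (1 : ℝ) ≤ 2 ^ Fintype.card (InfinitePlace K) := one_le_pow₀ (by norm_num)
    have h2 : (1 : ℝ) ≤ 7 ^ d := one_le_pow₀ (by norm_num)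
    nlinarith
  intro G U B T hT hU
  have hN := nn_pos U
  obtain ⟨ρ, hρ⟩ : ∃ ρ, ρ = Real.exp (2 * T) / nn U := ⟨_, rfl⟩
  have hρ0 : 0 < ρ := by rw [hρ]; positivity
  obtain ⟨σ, hσ⟩ : ∃ σ, σ = ρ ^ (1 / (d : ℝ)) := ⟨_, rfl⟩
  have hσ0 : 0 < σ := by rw [hσ]; positivity
  have hσd : σ ^ d = ρ := by
    rw [hσ, ← Real.rpow_natCast, ← Real.rpow_mul hρ0.le, one_div, inv_mul_cancel₀ hdR.ne',
      Real.rpow_one]
  obtain ⟨n, hn⟩ : ∃ n : ℕ, n = ⌊2 * σ⌋₊ + 1 := ⟨_, rfl⟩
  have hn0 : 0 < n := by omega
  have hnR : (0 : ℝ) < n := by exact_mod_cast hn0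
  have hn1 : 2 * σ < n := by
    rw [hn]
    push_cast
    exact Nat.lt_floor_add_one _
  have hn2 : (n : ℝ) ≤ 2 * σ + 1 := by
    rw [hn]
    push_cast
    have := Nat.floor_le (a := 2 * σ) (by positivity)
    linarith
  have hlt : 2 * T + (Module.finrank ℚ K : ℝ) * Real.log (2 / n) < Real.log (nn U) := by
    rw [← hd]
    have h1 : Real.log (2 / n) < -Real.log σ := by
      rw [← Real.log_inv]
      apply Real.log_lt_log (by positivity)
      rw [div_lt_iff₀ hnR, inv_mul_eq_div, lt_div_iff₀ hσ0]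
      exact hn1
    have h2 : (d : ℝ) * Real.log σ = 2 * T - Real.log (nn U) := by
      rw [← Real.log_pow, hσd, hρ, Real.log_div (Real.exp_pos _).ne' hN.ne', Real.log_exp]
    nlinarith
  have h := pack G U B T n hn0 hT hU hlt
  have h' : (G.card : ℝ) ≤ 2 ^ Fintype.card (InfinitePlace K) * (2 * n + 1) ^ d := by
    rw [hd]
    exact_mod_cast h
  refine h'.trans ?_
  rw [mul_assoc]
  refine mul_le_mul_of_nonneg_left ?_ (by positivity)
  rw [← hρ]
  have h3 : (2 * n + 1 : ℝ) ≤ 7 * max σ 1 := by
    have := le_max_left σ 1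
    have := le_max_right σ 1
    linarith
  calc (2 * n + 1 : ℝ) ^ d ≤ (7 * max σ 1) ^ d := pow_le_pow_left₀ (by positivity) h3 d
    _ = 7 ^ d * (max σ 1) ^ d := mul_pow _ _ _
    _ ≤ 7 ^ d * (ρ + 1) := by
        refine mul_le_mul_of_nonneg_left ?_ (by positivity)
        rcases max_choice σ 1 with h | h
        · rw [h, hσd]
          linarith
        · rw [h, one_pow]
          linarith

end Pool.Agent.Y911.PP
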