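import Pool.Agent.Y911.PP.Pack
import Pool.Agent.Y911.RR.Main

/-!
Supports of points of the projective line relative to a finite set of points.
-/

set_option autoImplicit false

namespace Pool.Agent.Y911.PP

open NumberField IsDedekindDomain Finset
open Pool.Agent.TH876.KR (form localHeight localHeight_nonneg localHeight_eq localHeight_pos_iff
  m2 form_le log_nn log_Nv_pos' counting)
open Pool.Agent.H691R3 Pool.Agent.TH876.Loc
open Pool.Agent.Y911.RR (Meet meet_iff meet_comm form_rep_ne meet_finite meet_mk)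

variable {K : Type} [Field K] [NumberField K] {q : ℕ}

open Classical in
/-- the primes outside `S` where a point meets `A` -/
noncomputable def sps (S : Set (Pr K)) (A : Fin q → Projectivization K (Fin 2 → K))
    (P : Projectivization K (Fin 2 → K)) : Finset (Pr K) :=
  if h : {v : Pr K | v ∉ S ∧ ∃ l, Meet v P (A l)}.Finite then h.toFinset else ∅

theorem sps_finite (S : Set (Pr K)) {A : Fin q → Projectivization K (Fin 2 → K)}
    {P : Projectivization K (Fin 2 → K)} (hP : ∀ l, P ≠ A l) :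
    {v : Pr K | v ∉ S ∧ ∃ l, Meet v P (A l)}.Finite := by
  have h1 : (⋃ l, {v : Pr K | Meet v P (A l)}).Finite :=
    Set.finite_iUnion fun l => meet_finite (hP l)
  refine h1.subset ?_
  rintro v ⟨_, l, hl⟩
  exact Set.mem_iUnion.2 ⟨l, hl⟩

theorem mem_sps {S : Set (Pr K)} {A : Fin q → Projectivization K (Fin 2 → K)}
    {P : Projectivization K (Fin 2 → K)} (hP : ∀ l, P ≠ A l) {v : Pr K} :
    v ∈ sps S A P ↔ v ∉ S ∧ ∃ l, Meet v P (A l) := by
  unfold sps
  rw [dif_pos (sps_finite S hP), Set.Finite.mem_toFinset]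
  rfl

theorem counting_eq' (S : Set (Pr K)) {A : Fin q → Projectivization K (Fin 2 → K)}
    {x : Fin 2 → K} (hx : x ≠ 0) (hf : ∀ l, form (A l).rep x ≠ 0)
    (hP : ∀ l, Projectivization.mk K x hx ≠ A l) :
    counting S (fun l => (A l).rep) x = Real.log (nn (sps S A (Projectivization.mk K x hx))) := by
  have key : ∀ (v : Pr K) (l : Fin q), 0 < localHeight v (A l).rep x ↔
      Meet v (Projectivization.mk K x hx) (A l) := by
    intro v l
    rw [localHeight_pos_iff v (hf l), ← meet_mk v (A l).rep_nonzero hx, (A l).mk_rep, meet_comm]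
  unfold counting
  rw [log_nn, ← finsum_mem_coe_finset]
  refine finsum_mem_congr ?_ fun v _ => rfl
  ext v
  rw [mem_coe, mem_sps hP]
  constructor
  · rintro ⟨hS, hv⟩
    obtain ⟨l, _, hl⟩ := Finset.exists_lt_of_sum_lt (s := univ)
      (f := fun _ : Fin q => (0 : ℝ)) (g := fun i => localHeight v (A i).rep x)
      (by simpa using hv)
    exact ⟨hS, l, (key v l).1 hl⟩
  · rintro ⟨hS, l, hl⟩
    exact ⟨hS, Finset.sum_pos' (fun i _ => localHeight_nonneg v (hf i))
      ⟨l, Finset.mem_univ _, (key v l).2 hl⟩⟩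

omit [NumberField K] in
theorem ne_of_form {A : Projectivization K (Fin 2 → K)} {x : Fin 2 → K} (hx : x ≠ 0)
    (hf : form A.rep x ≠ 0) : Projectivization.mk K x hx ≠ A := by
  intro h
  rw [← A.mk_rep, Projectivization.mk_eq_mk_iff'] at h
  obtain ⟨c, hc⟩ := h
  apply hf
  rw [← hc]
  unfold form
  simp only [Pi.smul_apply, smul_eq_mul]
  ring

omit [NumberField K] in
theorem form_of_ne {A : Projectivization K (Fin 2 → K)} {x : Fin 2 → K} (hx : x ≠ 0)
    (h : Projectivization.mk K x hx ≠ A) : form A.rep x ≠ 0 := by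
  intro hf
  have h1 := form_rep_ne h
  obtain ⟨a, ha⟩ := Projectivization.exists_smul_eq_mk_rep K x hx
  apply h1
  rw [← ha]
  have : form ((a : K) • x) A.rep = -(a : K) * form A.rep x := by
    unfold form
    simp only [Pi.smul_apply, smul_eq_mul]
    ring
  show form ((a : K) • x) A.rep = 0
  rw [this, hf, mul_zero]

/-- the points with a support of norm at most `X` -/
def Pts (S : Set (Pr K)) (A : Fin q → Projectivization K (Fin 2 → K)) (X : ℝ) :
    Set (Projectivization K (Fin 2 → K)) :=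
  {P | (∀ l, P ≠ A l) ∧ nn (sps S A P) ≤ X}

/-- the points with a support of norm at most `X` which are at least `M` times the support high -/
def Exc (S : Set (Pr K)) (A : Fin q → Projectivization K (Fin 2 → K)) (M X : ℝ) :
    Set (Projectivization K (Fin 2 → K)) :=
  {P | (∀ l, P ≠ A l) ∧ nn (sps S A P) ≤ X ∧
    M * Real.log (nn (sps S A P)) ≤ Height.logHeight P.rep}

theorem pts_eq (S : Set (Pr K)) (A : Fin q → Projectivization K (Fin 2 → K)) (X : ℝ) :
    Pool.Agent.Y728.PtsQ S (fun l => (A l).rep) X = Pts S A X := by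
  ext P
  constructor
  · rintro ⟨x, hx, rfl, hf, h⟩
    have hP := fun l => ne_of_form hx (hf l)
    rw [counting_eq' S hx hf hP, Real.exp_log (nn_pos _)] at h
    exact ⟨hP, h⟩
  · rintro ⟨hP, h⟩
    have hP' : ∀ l, Projectivization.mk K P.rep P.rep_nonzero ≠ A l := by
      intro l
      rw [P.mk_rep]
      exact hP l
    have hf : ∀ l, form (A l).rep P.rep ≠ 0 := fun l => form_of_ne P.rep_nonzero (hP' l)
    refine ⟨P.rep, P.rep_nonzero, P.mk_rep.symm, hf, ?_⟩
    rw [counting_eq' S P.rep_nonzero hf hP', Real.exp_log (nn_pos _), P.mk_rep]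
    exact h

theorem exc_sub (S : Set (Pr K)) (A : Fin q → Projectivization K (Fin 2 → K)) (M X : ℝ) :
    Exc S A M X ⊆ Pool.Agent.Y728.AK.ExcQ S (fun l => (A l).rep) M X := by
  rintro P ⟨hP, h, h2⟩
  have hP' : ∀ l, Projectivization.mk K P.rep P.rep_nonzero ≠ A l := by
    intro l
    rw [P.mk_rep]
    exact hP l
  have hf : ∀ l, form (A l).rep P.rep ≠ 0 := fun l => form_of_ne P.rep_nonzero (hP' l)
  refine ⟨P.rep, P.rep_nonzero, P.mk_rep.symm, hf, ?_, ?_⟩
  · rw [counting_eq' S P.rep_nonzero hf hP', Real.exp_log (nn_pos _), P.mk_rep]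
    exact h
  · rw [counting_eq' S P.rep_nonzero hf hP', P.mk_rep]
    exact h2

theorem exc_pts (S : Set (Pr K)) (A : Fin q → Projectivization K (Fin 2 → K)) (M X : ℝ) :
    Exc S A M X ⊆ Pts S A X := fun _ h => ⟨h.1, h.2.1⟩

/-- the count of the points -/
theorem pts_le (S : Set (Pr K)) (hS : S.Finite) (hq : 3 ≤ q)
    {A : Fin q → Projectivization K (Fin 2 → K)} (hA : Function.Injective A) (δ : ℝ)
    (hδ : 0 < δ) : ∃ C : ℝ, 0 < C ∧ ∀ X : ℝ, 1 ≤ X → (Pts S A X).Finite ∧
      ((Pts S A X).ncard : ℝ) ≤ C * X ^ (2 / (q : ℝ) + δ) := by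
  obtain ⟨C, hC⟩ := Pool.Agent.Y728.line_final K S hS q hq (fun l => (A l).rep)
    (fun i j hij => form_rep_ne fun h => hij (hA h)) δ hδ
  refine ⟨max C 1, by positivity, fun X hX => ?_⟩
  obtain ⟨h1, h2⟩ := hC X hX
  rw [pts_eq] at h1 h2
  refine ⟨h1, h2.trans (mul_le_mul_of_nonneg_right (le_max_left _ _) ?_)⟩
  have : 0 < X := by linarith
  positivity

theorem pts_low (S : Set (Pr K)) (hS : S.Finite) (hq : 3 ≤ q)
    {A : Fin q → Projectivization K (Fin 2 → K)} (hA : Function.Injective A) (δ : ℝ)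
    (hδ : 0 < δ) : ∃ X₀ : ℝ, 1 ≤ X₀ ∧ ∀ X : ℝ, X₀ ≤ X →
      X ^ (2 / (q : ℝ) - δ) ≤ ((Pts S A X).ncard : ℝ) := by
  obtain ⟨X0, h1, h2⟩ := Pool.Agent.Y728.AK.line_low K S hS q hq (fun l => (A l).rep)
    (fun i j hij => form_rep_ne fun h => hij (hA h)) δ hδ
  refine ⟨X0, h1, fun X hX => ?_⟩
  have := h2 X hX
  rwa [pts_eq] at this

theorem exc_ratio (S : Set (Pr K)) (hS : S.Finite) (hq : 3 ≤ q)
    {A : Fin q → Projectivization K (Fin 2 → K)} (hA : Function.Injective A) {M : ℝ}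
    (hM : 1 / (q : ℝ) < M) : ∃ ν X₀ : ℝ, 0 < ν ∧ 1 ≤ X₀ ∧ ∀ X : ℝ, X₀ ≤ X →
      ((Exc S A M X).ncard : ℝ) ≤ X ^ (-ν) * ((Pts S A X).ncard : ℝ) := by
  obtain ⟨ν, X0, hν, h⟩ := Pool.Agent.Y728.AK.line_ratio K S hS q hq (fun l => (A l).rep)
    (fun i j hij => form_rep_ne fun h => hij (hA h)) hM
  obtain ⟨C, hC⟩ := Pool.Agent.Y728.line_final K S hS q hq (fun l => (A l).rep)
    (fun i j hij => form_rep_ne fun h => hij (hA h)) 1 one_pos
  refine ⟨ν, max X0 1, hν, le_max_right _ _, fun X hX => ?_⟩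
  have h1 := h X ((le_max_left _ _).trans hX)
  rw [pts_eq] at h1
  refine le_trans ?_ h1
  exact_mod_cast Set.ncard_le_ncard (exc_sub S A M X)
    ((hC X ((le_max_right _ _).trans hX)).1.subset (Pool.Agent.Y728.AK.ExcQ_sub S _ M X))

end Pool.Agent.Y911.PP
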